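import Pool.Agent.H9.RC1

namespace Pool.Agent.Results.MP_560646_mp.Alpha3
open Matrix Pool.Agent.H9.RE Pool.Agent.H9.RC

/-- binary Renyi entropy, `α ≠ 1` -/
noncomputable def h (α p : ℝ) : ℝ := 1 / (1 - α) * Real.log (p ^ α + (1 - p) ^ α)

/-- its inverse on `[0, 1/2]` -/
noncomputable def g (α : ℝ) : ℝ → ℝ := Function.invFunOn (h α) (Set.Icc 0 (1 / 2))

/-- binary convolution -/
def conv (p q : ℝ) : ℝ := p * (1 - q) + (1 - p) * q

/-- the conjectured bound -/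
noncomputable def F (α H₁ H₂ : ℝ) : ℝ :=
  if H₁ + H₂ ≤ Real.log 2 then h α (conv (g α H₁) (g α H₂))
  else H₁ + H₂ - Real.log 2 + h α (conv (g α (Real.log 2 - H₁)) (g α (Real.log 2 - H₂)))

lemma h3 (p : ℝ) : h 3 p = Real.log ((1 + 3 * (1 - 2 * p) ^ 2) / 4) / (1 - 3) := by
  have e : ∀ x : ℝ, x ^ (3 : ℝ) = x ^ (3 : ℕ) := fun x => by exact_mod_cast Real.rpow_natCast x 3
  rw [h, e, e, show p ^ 3 + (1 - p) ^ 3 = (1 + 3 * (1 - 2 * p) ^ 2) / 4 by ring]; ring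

lemma g3 {c : ℝ} (h0 : 0 ≤ c) (h1 : c ≤ 1) :
    (1 - 2 * g 3 (Real.log ((1 + 3 * c) / 4) / (1 - 3))) ^ 2 = c := by
  have s0 := Real.sqrt_nonneg c
  have s1 : √c ≤ 1 := Real.sqrt_le_one.mpr h1
  have ex : ∃ p ∈ Set.Icc (0 : ℝ) (1 / 2), h 3 p = Real.log ((1 + 3 * c) / 4) / (1 - 3) :=
    ⟨(1 - √c) / 2, ⟨by linarith, by linarith⟩, by
      rw [h3, show 1 - 2 * ((1 - √c) / 2) = √c by ring, Real.sq_sqrt h0]⟩
  have e := Function.invFunOn_eq ex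
  rw [h3, div_left_inj' (by norm_num)] at e
  have := Real.log_injOn_pos (Set.mem_Ioi.mpr (by positivity)) (Set.mem_Ioi.mpr (by positivity)) e
  unfold g; linarith

lemma flip {c : ℝ} (h0 : 0 ≤ c) : Real.log 2 - Real.log ((1 + 3 * c) / 4) / (1 - 3) =
    Real.log ((1 + 3 * ((1 - c) / (1 + 3 * c))) / 4) / (1 - 3) := by
  have : (1 + 3 * ((1 - c) / (1 + 3 * c))) / 4 = ((1 + 3 * c) / 4 * 2 ^ 2)⁻¹ := by
    field_simp; ring
  rw [this, Real.log_inv, Real.log_mul (by positivity) (by positivity), Real.log_pow]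
  push_cast; ring

/-- Equality at `α = 3` for arbitrary quantum side information. -/
theorem result (d₁ d₂ : ℕ) (σ : Fin 2 → Matrix (Fin d₁) (Fin d₁) ℂ)
    (s : Fin 2 → Matrix (Fin d₂) (Fin d₂) ℂ) (hσ : ∀ x, IsState (σ x)) (hs : ∀ x, IsState (s x)) :
    Hd 3 (tau σ s) = F 3 (Hd 3 (rho σ)) (Hd 3 (rho s)) := by
  obtain ⟨a, b, a0, a1, b0, b1, h1, h2, h4⟩ := main σ s hσ hs
  have cv : ∀ p q : ℝ, (1 - 2 * conv p q) ^ 2 = (1 - 2 * p) ^ 2 * (1 - 2 * q) ^ 2 := by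
    intro p q; unfold conv; ring
  have fl : ∀ c : ℝ, 0 ≤ c → c ≤ 1 → 0 ≤ (1 - c) / (1 + 3 * c) ∧ (1 - c) / (1 + 3 * c) ≤ 1 :=
    fun c c0 c1 => ⟨div_nonneg (by linarith) (by positivity),
      (div_le_one (by positivity)).mpr (by linarith)⟩
  rw [F, Hd, Hd, Hd, h1, h2, h4]
  split_ifs
  · rw [h3, cv, g3 a0 a1, g3 b0 b1]
  · rw [h3, cv, flip a0, flip b0, g3 (fl a a0 a1).1 (fl a a0 a1).2,
      g3 (fl b b0 b1).1 (fl b b0 b1).2]
    have p := mul_nonneg (fl a a0 a1).1 (fl b b0 b1).1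
    have : (1 + 3 * (a * b)) / 4 = (1 + 3 * a) / 4 * ((1 + 3 * b) / 4) * 2 ^ 2 *
        ((1 + 3 * ((1 - a) / (1 + 3 * a) * ((1 - b) / (1 + 3 * b)))) / 4) := by
      field_simp; ring
    rw [this, Real.log_mul (by positivity) (by positivity),
      Real.log_mul (by positivity) (by positivity), Real.log_mul (by positivity) (by positivity),
      Real.log_pow]
    push_cast; ring

end Pool.Agent.Results.MP_560646_mp.Alpha3
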